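import Mathlib

set_option autoImplicit false

namespace Pool.Agent.Results.MP_904b92_lc.NotMC

open Function Nat Equiv

/-- Structures for the vocabulary with one binary relation symbol, on the universe `Fin n`. -/
abbrev Str (n : ℕ) := Fin n → Fin n → Prop

/-- Closure under isomorphism and (nonempty induced) substructures. -/
def Hereditary (C : ∀ n, Str n → Prop) : Prop :=
  ∀ (m n : ℕ) (g : Fin m → Fin n) (R : Str n), 1 ≤ m → Injective g → C n R →
    C m fun a b => R (g a) (g b)

/-- The number of labelled structures on `Fin n` in the class. -/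
noncomputable def Sp (C : ∀ n, Str n → Prop) (n : ℕ) : ℕ := {R | C n R}.ncard

def MCFinite (s : ℕ → ℤ) : Prop :=
  ∀ m : ℕ, 1 ≤ m → ∃ r p : ℕ, 1 ≤ r ∧ 1 ≤ p ∧ ∃ α : Fin p → ℤ, ∀ n, r ≤ n →
    s (n + p) ≡ ∑ i : Fin p, α i * s (n + i) [ZMOD m]

theorem odd_choose (k j : ℕ) (h : j < 2 ^ k) : Odd ((2 ^ k - 1).choose j) := by
  induction j with
  | zero => simp
  | succ j ih =>
    have e : (2 ^ k).choose (j + 1) = (2 ^ k - 1).choose j + (2 ^ k - 1).choose (j + 1) := by
      rw [← choose_succ_succ']; congr 1; omega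
    have := even_iff_two_dvd.2 (prime_two.dvd_choose_pow (n := k) j.succ_ne_zero h.ne)
    rw [e] at this
    exact (Nat.even_add'.1 this).1 (ih (by omega))

theorem fact_odd (k : ℕ) : ∃ q, Odd q ∧ (2 ^ k - 1)! = q * ∏ i : Fin k, (2 ^ i.val)! := by
  induction k with
  | zero => exact ⟨1, by simp⟩
  | succ k ih =>
    obtain ⟨q, h1, h2⟩ := ih
    have h3 : 2 ^ k ≤ 2 ^ (k + 1) - 1 := by have := k.two_pow_pos; omega
    refine ⟨_, (odd_choose (k + 1) (2 ^ k) (by have := k.two_pow_pos; omega)).mul h1, ?_⟩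
    rw [← choose_mul_factorial_mul_factorial h3, show 2 ^ (k + 1) - 1 - 2 ^ k = 2 ^ k - 1 by omega,
      h2, Fin.prod_univ_castSucc]
    simp; ring

theorem exists_blk (k : ℕ) : ∃ b : Fin (2 ^ (k + 1) - 1) → Fin (k + 1),
    ∀ i, {a | b a = i}.ncard = 2 ^ i.val := by
  have : Fintype.card (Σ i : Fin (k + 1), Fin (2 ^ i.val)) = 2 ^ (k + 1) - 1 := by
    simp [Finset.sum_range (fun i => 2 ^ i) |>.symm, Nat.geomSum_eq]
  let e := Fintype.equivFinOfCardEq this
  refine ⟨fun a => (e.symm a).1, fun i => ?_⟩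
  rw [← Set.ncard_image_of_injective _ e.symm.injective]
  have : e.symm '' {a | (e.symm a).1 = i} = Set.range (Sigma.mk i) := by
    ext ⟨j, x⟩
    simp only [Set.mem_image, Set.mem_ofPred_eq, Set.mem_range]
    constructor
    · rintro ⟨a, h1, h2⟩
      rw [h2] at h1; subst h1; exact ⟨x, rfl⟩
    · rintro ⟨y, h⟩
      exact ⟨e ⟨i, y⟩, by simp, by simp [h]⟩
  rw [this, Set.ncard_range_of_injective sigma_mk_injective]; simp

noncomputable def blk (k : ℕ) := (exists_blk k).choose

def A (k : ℕ) : Str (2 ^ (k + 1) - 1) := fun x y =>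
  ((blk k y).val : ZMod (k + 1)) = (blk k x).val + 1

def Emb {m n : ℕ} (g : Fin m → Fin n) (R : Str m) (S : Str n) : Prop :=
  Injective g ∧ ∀ x y, R x y ↔ S (g x) (g y)

theorem anti {j k : ℕ} {g} (h : Emb g (A k) (A j)) : k = j := by
  have hs : ∀ i : ZMod (k + 1), ∃ a, ((blk k a).val : ZMod (k + 1)) = i := fun i => by
    obtain ⟨a, ha⟩ := Set.nonempty_of_ncard_ne_zero (((exists_blk k).choose_spec
      ⟨i.val, ZMod.val_lt i⟩).trans_ne (by positivity))
    exact ⟨a, by rw [show blk k a = _ from ha]; simp⟩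
  choose t ht using hs
  have : ∀ m : ℕ, ((blk j (g (t m))).val : ZMod (j + 1)) = (blk j (g (t 0))).val + m := by
    intro m
    induction m with
    | zero => simp
    | succ m ih =>
      have := (h.2 (t m) (t (m + 1 : ℕ))).1 (by simp [A, ht])
      rw [A, ih] at this
      rw [this]; push_cast; ring
  have h1 := this (k + 1)
  rw [ZMod.natCast_self, left_eq_add, ZMod.natCast_eq_zero_iff] at h1
  have h2 := Nat.le_of_dvd (by omega) h1
  have h3 := Fintype.card_le_of_injective g h.1
  simp only [Fintype.card_fin] at h3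
  have h4 : 2 ^ (k + 1) ≤ 2 ^ (j + 1) := by have := (j + 1).two_pow_pos; omega
  have := (Nat.pow_le_pow_iff_right (by omega)).1 h4
  omega

@[reducible] def act (n : ℕ) : MulAction (Perm (Fin n)) (Str n) where
  smul σ R := fun x y => R (σ⁻¹ x) (σ⁻¹ y)
  one_smul _ := rfl
  mul_smul _ _ _ := rfl

theorem odd_copies (k : ℕ) : Odd {R : Str (2 ^ (k + 1) - 1) | ∃ g, Emb g R (A k)}.ncard := by
  let := act (2 ^ (k + 1) - 1)
  let H : Subgroup (Perm (Fin (2 ^ (k + 1) - 1))) :=
    { carrier := {g | blk k ∘ g = blk k}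
      mul_mem' := fun {a b} ha hb => by
        simp only [Set.mem_ofPred_eq, Perm.coe_mul] at *
        rw [← comp_assoc, ha, hb]
      one_mem' := rfl
      inv_mem' := fun {a} ha => funext fun x => by simpa using (congrFun ha (a⁻¹ x)).symm }
  have h1 : H ≤ MulAction.stabilizer _ (A k) := fun g hg => by
    funext x y
    have := fun z => congrFun (H.inv_mem hg) z
    change A k (g⁻¹ x) (g⁻¹ y) = _
    simp only [A, comp] at this ⊢
    rw [this, this]
  have h2 : Nat.card H = ∏ i : Fin (k + 1), (2 ^ i.val)! := by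
    have := DomMulAct.stabilizer_ncard (blk k)
    simp only [blk, (exists_blk k).choose_spec] at this
    exact this
  obtain ⟨q, h3, h4⟩ := fact_odd (k + 1)
  have h5 := H.index_mul_card
  rw [h2, Nat.card_perm, Nat.card_eq_fintype_card, Fintype.card_fin, h4] at h5
  obtain rfl := Nat.eq_of_mul_eq_mul_right (by positivity) h5
  have := Odd.of_dvd_nat h3 (Subgroup.index_dvd_of_le h1)
  rw [MulAction.index_stabilizer] at this
  convert this using 2
  ext R
  constructor
  · rintro ⟨g, a, b⟩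
    exact ⟨(ofBijective g a.bijective_of_finite)⁻¹, funext₂ fun x y => propext (b x y).symm⟩
  · rintro ⟨g, rfl⟩
    exact ⟨⇑g⁻¹, g⁻¹.injective, fun _ _ => Iff.rfl⟩

def D (n : ℕ) (R : Str n) : Prop := ∀ k g, ¬ Emb g (A k) R

def C (S : Set ℕ) (n : ℕ) (R : Str n) : Prop :=
  D n R ∨ ∃ k ∈ S, n = 2 ^ (k + 1) - 1 ∧ ∃ g, Emb g R (A k)

theorem her (S : Set ℕ) : Hereditary (C S) := by
  intro m n g R _ hg h
  by_cases hD : D m fun a b => R (g a) (g b)
  · exact Or.inl hD
  simp only [D, not_forall, not_not] at hD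
  obtain ⟨j, f, h1⟩ := hD
  rcases h with h | ⟨k, hk, rfl, e, h⟩
  · exact (h j (g ∘ f) ⟨hg.comp h1.1, h1.2⟩).elim
  obtain rfl := anti (g := e ∘ g ∘ f) ⟨h.1.comp (hg.comp h1.1), fun x y => (h1.2 x y).trans (h.2 _ _)⟩
  have a := Fintype.card_le_of_injective g hg
  have b := Fintype.card_le_of_injective f h1.1
  simp only [Fintype.card_fin] at a b
  exact Or.inr ⟨j, hk, by omega, e ∘ g, h.1.comp hg, fun x y => h.2 _ _⟩

open Classical in
theorem sp (S : Set ℕ) (k : ℕ) : ((Sp (C S) (2 ^ (k + 1) - 1) : ℤ) : ZMod 2) =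
    Sp D (2 ^ (k + 1) - 1) + if k ∈ S then 1 else 0 := by
  have inj : ∀ j, 2 ^ (k + 1) - 1 = 2 ^ (j + 1) - 1 → k = j := fun j h => by
    have := (k + 1).two_pow_pos
    have := (j + 1).two_pow_pos
    have : 2 ^ (k + 1) = 2 ^ (j + 1) := by omega
    simpa using this
  split_ifs with h
  · have : {R | C S (2 ^ (k + 1) - 1) R} = {R | D _ R} ∪ {R | ∃ g, Emb g R (A k)} := by
      ext R
      refine or_congr_right ⟨?_, fun h' => ⟨k, h, rfl, h'⟩⟩
      rintro ⟨j, -, e, h'⟩
      obtain rfl := inj j e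
      exact h'
    rw [Sp, this, Set.ncard_union_eq, Sp]
    · simp [(ZMod.natCast_eq_one_iff_odd).2 (odd_copies k)]
    · refine Set.disjoint_left.2 fun R h1 ⟨g, a, b⟩ => ?_
      let e := ofBijective g a.bijective_of_finite
      exact h1 k e.symm ⟨e.symm.injective, fun x y => by
        rw [b]; exact (iff_of_eq (congrArg₂ (A k) (e.apply_symm_apply x)
          (e.apply_symm_apply y))).symm⟩
  · have : {R | C S (2 ^ (k + 1) - 1) R} = {R | D _ R} := by
      ext R
      refine or_iff_left ?_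
      rintro ⟨j, hj, e, -⟩
      exact h (inj j e ▸ hj)
    simp [Sp, this]

theorem countable_rec : {u : ℕ → ZMod 2 | ∃ r p : ℕ, ∃ α : Fin p → ℤ, ∀ n, r ≤ n →
    u (n + p) = ∑ i : Fin p, α i * u (n + i)}.Countable := by
  simp only [Set.setOf_exists]
  refine Set.countable_iUnion fun r => Set.countable_iUnion fun p => Set.countable_iUnion fun α =>
    Set.countable_of_injective_of_countable_image (f := fun u (i : Fin (r + p)) => u i) ?_
      (Set.to_countable _)
  intro u hu v hv e
  funext n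
  induction n using Nat.strong_induction_on with
  | _ n ih =>
    by_cases h : n < r + p
    · exact congrFun e ⟨n, h⟩
    · obtain ⟨m, rfl⟩ : ∃ m, n = m + p := ⟨n - p, by omega⟩
      rw [hu m (by omega), hv m (by omega)]
      exact Finset.sum_congr rfl fun i _ => by rw [ih _ (by omega)]

theorem result : ∃ C : ∀ n, Str n → Prop, Hereditary C ∧ ¬ MCFinite fun n => Sp C n := by
  by_contra h
  push Not at h
  have hi : Injective fun (S : Set ℕ) (n : ℕ) => ((Sp (C S) n : ℤ) : ZMod 2) := by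
    intro S T e
    ext k
    have := congrFun e (2 ^ (k + 1) - 1)
    simp only [sp, add_right_inj] at this
    by_cases a : k ∈ S <;> by_cases b : k ∈ T <;> simp_all
  have := countable_rec.preimage_of_injOn hi.injOn
  have hu : Uncountable (Set ℕ) := ⟨fun h => by
    obtain ⟨f, hf⟩ := exists_surjective_nat (Set ℕ)
    exact cantor_surjective f hf⟩
  refine Set.not_countable_univ (this.mono fun S _ => ?_)
  obtain ⟨r, p, -, -, α, h⟩ := h _ (her S) 2 (by omega)
  exact ⟨r, p, α, fun n hn => by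
    simpa using (ZMod.intCast_eq_intCast_iff _ _ 2).2 (h n hn)⟩

end Pool.Agent.Results.MP_904b92_lc.NotMC
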